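import Pool.Agent.helper32.QS.Spec

set_option autoImplicit false

open scoped BigOperators commutatorElement

namespace QS

/-- the commutator of a Heisenberg pair has `p`-th power one -/
theorem C7_zp {G : Type} [Group G] {p : ℕ} {x y : G} (h : Heis p x y) : ⁅x, y⁆ ^ p = 1 := by
  obtain ⟨hx, hy, hz, hzx, hzy⟩ := h
  have h1 : x * y * x⁻¹ = ⁅x, y⁆ * y := by rw [commutatorElement_def]; group
  have h2 : (x * y * x⁻¹) ^ p = ⁅x, y⁆ ^ p * y ^ p := by
    rw [h1]; exact (show Commute ⁅x, y⁆ y from hzy).mul_pow p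
  have h3 : (x * y * x⁻¹) ^ p = x * y ^ p * x⁻¹ := conj_pow
  rw [h3, hy, mul_one, mul_inv_cancel, mul_one] at h2
  exact h2.symm

/-- no normal `p`-subgroups -/
theorem C7_noP (M : Type) [CommGroup M] [Finite M] [Nontrivial M] (p : ℕ) (hp : p.Prime)
    (hM : ∀ m : M, m ^ p = 1) (H : Subgroup (MulAut M))
    (hirr : ∀ W : Subgroup M, (∀ h ∈ H, ∀ w ∈ W, h w ∈ W) → W = ⊥ ∨ W = ⊤)
    (P : Subgroup H) (hPn : P.Normal) (hP : IsPGroup p P) : P = ⊥ := by
  have := Fact.mk hp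
  have hMp : IsPGroup p M := fun m => ⟨1, by rw [pow_one]; exact hM m⟩
  obtain ⟨μ, hμ⟩ := IsPGroup.iff_card.1 hMp
  have hdvd : p ∣ Nat.card M := by
    rw [hμ]
    refine dvd_pow_self p ?_
    rintro rfl
    rw [pow_zero] at hμ
    have := Finite.one_lt_card (α := M)
    omega
  let W : Subgroup M :=
    { carrier := {m | ∀ g : H, g ∈ P → (g : MulAut M) m = m}
      one_mem' := fun g _ => map_one _
      mul_mem' := fun {a b} ha hb g hg => by rw [map_mul, ha g hg, hb g hg]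
      inv_mem' := fun {a} ha g hg => by rw [map_inv, ha g hg] }
  have hWinv : ∀ h ∈ H, ∀ w ∈ W, h w ∈ W := by
    intro h hh w hw g hg
    have h1 : (⟨h, hh⟩ : H)⁻¹ * g * (⟨h, hh⟩ : H) ∈ P := by
      have := hPn.conj_mem g hg (⟨h, hh⟩ : H)⁻¹
      rwa [inv_inv] at this
    have h2 := hw _ h1
    have h3 : (((⟨h, hh⟩ : H)⁻¹ * g * (⟨h, hh⟩ : H) : H) : MulAut M) w
        = h⁻¹ ((g : MulAut M) (h w)) := rfl
    rw [h3] at h2
    have h4 : h (h⁻¹ ((g : MulAut M) (h w))) = h w := by rw [h2]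
    rwa [MulAut.apply_inv_self] at h4
  have hone : (1 : M) ∈ MulAction.fixedPoints P M := by
    intro g
    show ((g : H) : MulAut M) 1 = 1
    exact map_one _
  obtain ⟨b, hb, hb1⟩ := hP.exists_fixed_point_of_prime_dvd_card_of_fixed_point M hdvd hone
  have hbW : b ∈ W := fun g hg => hb ⟨g, hg⟩
  rcases hirr W hWinv with h | h
  · exfalso
    rw [h, Subgroup.mem_bot] at hbW
    exact hb1 hbW.symm
  · rw [eq_bot_iff]
    intro g hg
    rw [Subgroup.mem_bot]
    apply Subtype.ext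
    ext m
    have hm : m ∈ W := by rw [h]; trivial
    exact hm g hg

/-- the commutator subgroup of an `ℓ`-group consists of non-generators -/
theorem C7_nong {Q : Type} [Group Q] [Finite Q] {ℓ : ℕ} (hl : ℓ.Prime) (hQ : IsPGroup ℓ Q)
    (C : Subgroup Q) (hC : C ⊔ commutator Q = ⊤) : C = ⊤ := by
  have := Fact.mk hl
  have : Group.IsNilpotent Q := hQ.isNilpotent
  by_contra hne
  obtain h | ⟨K, hK, hCK⟩ := eq_top_or_exists_le_coatom C
  · exact hne h
  have hnc : NormalizerCondition Q := Group.normalizerCondition_of_isNilpotent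
  have hn : K.Normal := Subgroup.NormalizerCondition.normal_of_coatom K hnc hK
  have hcomm : commutator Q ≤ K := by
    have : Nontrivial (Q ⧸ K) := by
      refine QuotientGroup.nontrivial_iff.2 hK.1
    have hQK : IsPGroup ℓ (Q ⧸ K) := hQ.to_quotient K
    have := hQK.center_nontrivial
    obtain ⟨c, hc⟩ := exists_ne (1 : Subgroup.center (Q ⧸ K))
    obtain ⟨c0, hc0⟩ := QuotientGroup.mk_surjective (c : Q ⧸ K)
    have hZ : (Subgroup.center (Q ⧸ K)).comap (QuotientGroup.mk' K) = ⊤ := by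
      rcases hK.le_iff.1 (show K ≤ (Subgroup.center (Q ⧸ K)).comap (QuotientGroup.mk' K) from
        fun k hk => by
          rw [Subgroup.mem_comap]
          have : QuotientGroup.mk' K k = 1 := (QuotientGroup.eq_one_iff k).2 hk
          rw [this]; exact Subgroup.one_mem _) with h | h
      · exact h
      · exfalso
        have h1 : c0 ∈ (Subgroup.center (Q ⧸ K)).comap (QuotientGroup.mk' K) := by
          rw [Subgroup.mem_comap]
          show (c0 : Q ⧸ K) ∈ _
          rw [hc0]; exact c.2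
        rw [h] at h1
        apply hc
        apply Subtype.ext
        rw [← hc0]
        exact (QuotientGroup.eq_one_iff c0).2 h1
    rw [commutator_def, Subgroup.commutator_le]
    intro a _ b _
    rw [← QuotientGroup.eq_one_iff]
    have ha : a ∈ (Subgroup.center (Q ⧸ K)).comap (QuotientGroup.mk' K) := by rw [hZ]; trivial
    rw [Subgroup.mem_comap, Subgroup.mem_center_iff] at ha
    have hab : (b : Q ⧸ K) * (a : Q ⧸ K) = (a : Q ⧸ K) * (b : Q ⧸ K) := ha (b : Q ⧸ K)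
    show ((⁅a, b⁆ : Q) : Q ⧸ K) = 1
    have h5 : ((⁅a, b⁆ : Q) : Q ⧸ K) = (a : Q ⧸ K) * (b : Q ⧸ K) * (a : Q ⧸ K)⁻¹ * (b : Q ⧸ K)⁻¹ := rfl
    rw [h5, ← hab]
    group
  exact hK.1 (top_le_iff.1 (hC ▸ sup_le hCK hcomm))

/-- fixed points in cosets -/
theorem C7_fix {G : Type} [Group G] [Finite G] {p : ℕ} (hp : p.Prime) (D : Subgroup G)
    (hD : D.Normal) (hpD : ¬ p ∣ Nat.card D) (z q : G) (hz : z ^ p = 1)
    (hzq : q⁻¹ * z * q * z⁻¹ ∈ D) : ∃ c ∈ D, z * (q * c) = (q * c) * z := by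
  have := Fact.mk hp
  have hto : ∀ c ∈ D, q⁻¹ * z * q * c * z⁻¹ ∈ D := fun c hc => by
    have h1 : q⁻¹ * z * q * c * z⁻¹ = (q⁻¹ * z * q * z⁻¹) * (z * c * z⁻¹) := by group
    rw [h1]; exact D.mul_mem hzq (hD.conj_mem c hc z)
  have hinv : ∀ c ∈ D, q⁻¹ * z⁻¹ * q * c * z ∈ D := fun c hc => by
    have h1 : q⁻¹ * z⁻¹ * q * c * z =
        (z⁻¹ * (q⁻¹ * z * q * z⁻¹)⁻¹ * z⁻¹⁻¹) * (z⁻¹ * c * z⁻¹⁻¹) := by group
    rw [h1]
    exact D.mul_mem (hD.conj_mem _ (D.inv_mem hzq) z⁻¹) (hD.conj_mem c hc z⁻¹)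
  let τ : Equiv.Perm D :=
    { toFun := fun c => ⟨q⁻¹ * z * q * c * z⁻¹, hto c c.2⟩
      invFun := fun c => ⟨q⁻¹ * z⁻¹ * q * c * z, hinv c c.2⟩
      left_inv := fun c => by
        apply Subtype.ext
        show q⁻¹ * z⁻¹ * q * (q⁻¹ * z * q * c * z⁻¹) * z = c
        group
      right_inv := fun c => by
        apply Subtype.ext
        show q⁻¹ * z * q * (q⁻¹ * z⁻¹ * q * c * z) * z⁻¹ = c
        group }
  have hpow : ∀ (k : ℕ) (c : D), ((τ ^ k) c : G) = q⁻¹ * z ^ k * q * c * (z ^ k)⁻¹ := by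
    intro k
    induction k with
    | zero => intro c; simp
    | succ k ih =>
      intro c
      rw [pow_succ', Equiv.Perm.mul_apply]
      show q⁻¹ * z * q * ((τ ^ k) c : G) * z⁻¹ = _
      rw [ih c, pow_succ']
      group
  have hτ : τ ^ p ^ 1 = 1 := by
    ext c
    rw [pow_one, hpow, hz]
    simp
  have : Fintype D := Fintype.ofFinite D
  obtain ⟨c, hc⟩ := Equiv.Perm.exists_fixed_point_of_prime (p := p)
    (by rwa [← Nat.card_eq_fintype_card]) hτ
  refine ⟨c, c.2, ?_⟩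
  have h1 : q⁻¹ * z * q * (c : G) * z⁻¹ = c := congrArg Subtype.val hc
  calc z * (q * (c : G)) = q * (q⁻¹ * z * q * (c : G) * z⁻¹) * z := by group
    _ = q * c * z := by rw [h1]

/-- the action on the abelianization of a normal subgroup -/
noncomputable def C7_Phi {H : Type} [Group H] (Q : Subgroup H) [Q.Normal] :
    H →* MulAut (Abelianization Q) where
  toFun h := (MulAut.conjNormal h : MulAut Q).abelianizationCongr
  map_one' := by
    ext a
    induction a using QuotientGroup.induction_on with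
    | H a =>
      show Abelianization.of ((MulAut.conjNormal (1 : H) : MulAut Q) a) = Abelianization.of a
      rw [map_one]; rfl
  map_mul' g h := by
    ext a
    induction a using QuotientGroup.induction_on with
    | H a =>
      show Abelianization.of ((MulAut.conjNormal (g * h) : MulAut Q) a) =
        Abelianization.of ((MulAut.conjNormal g : MulAut Q) ((MulAut.conjNormal h : MulAut Q) a))
      rw [map_mul]; rfl

/-- the action of a `p`-element on the abelianization of a normal `ℓ`-subgroup is faithful -/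
theorem C7_PhiNe {H : Type} [Group H] [Finite H] (Q : Subgroup H) [Q.Normal] {p ℓ : ℕ}
    (hp : p.Prime) (hl : ℓ.Prime) (hlp : ℓ ≠ p) (hQ : IsPGroup ℓ Q) (z : H) (hz : z ^ p = 1)
    (hΦ : C7_Phi Q z = 1) : ∀ q ∈ Q, z * q = q * z := by
  have := Fact.mk hl
  let C : Subgroup Q := (Subgroup.centralizer ({z} : Set H)).comap Q.subtype
  have hD : (⁅Q, Q⁆ : Subgroup H).Normal := inferInstance
  have hDQ : ⁅Q, Q⁆ ≤ Q := Subgroup.commutator_le_right Q Q
  have hpD : ¬ p ∣ Nat.card (⁅Q, Q⁆ : Subgroup H) := by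
    obtain ⟨n, hn⟩ := IsPGroup.iff_card.1 (hQ.to_le hDQ)
    rw [hn]
    intro h
    exact hlp ((Nat.prime_dvd_prime_iff_eq hp hl).1 (hp.dvd_of_dvd_pow h)).symm
  have hmap : (commutator Q).map Q.subtype = ⁅Q, Q⁆ := Subgroup.map_subtype_commutator Q
  have hC : C ⊔ commutator Q = ⊤ := by
    rw [eq_top_iff]
    intro a _
    have h1 : Abelianization.of ((MulAut.conjNormal z : MulAut Q) a) = Abelianization.of a := by
      have h2 := congrArg (fun f : MulAut (Abelianization Q) => f (Abelianization.of a)) hΦ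
      exact h2
    have h3 : a⁻¹ * (MulAut.conjNormal z : MulAut Q) a ∈ commutator Q := by
      have h4 := QuotientGroup.eq.1 h1.symm
      exact h4
    have h5 : (a : H)⁻¹ * z * (a : H) * z⁻¹ ∈ (⁅Q, Q⁆ : Subgroup H) := by
      rw [← hmap]
      refine ⟨_, h3, ?_⟩
      show ((a⁻¹ * (MulAut.conjNormal z : MulAut Q) a : Q) : H) = _
      rw [Subgroup.coe_mul, MulAut.conjNormal_apply, Subgroup.coe_inv]
      group
    obtain ⟨c, hc, hcz⟩ := C7_fix hp _ hD hpD z (a : H) hz h5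
    have hcQ : c ∈ Q := hDQ hc
    have hcc : (⟨c, hcQ⟩ : Q) ∈ commutator Q := by
      rw [← hmap] at hc
      obtain ⟨d, hd, hdc⟩ := hc
      have : d = ⟨c, hcQ⟩ := Subtype.ext hdc
      rwa [← this]
    have hac : a * ⟨c, hcQ⟩ ∈ C := by
      rw [Subgroup.mem_comap, Subgroup.mem_centralizer_iff]
      intro w hw
      rw [Set.mem_singleton_iff] at hw
      rw [hw]
      exact hcz
    have h6 : a = (a * ⟨c, hcQ⟩) * (⟨c, hcQ⟩ : Q)⁻¹ := by group
    rw [h6]
    exact mul_mem (Subgroup.mem_sup_left hac) (Subgroup.mem_sup_right (inv_mem hcc))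
  have hCt := C7_nong hl hQ C hC
  intro q hq
  have h1 : (⟨q, hq⟩ : Q) ∈ C := by rw [hCt]; trivial
  rw [Subgroup.mem_comap, Subgroup.mem_centralizer_iff] at h1
  exact h1 z (Set.mem_singleton z)

/-- image of a Heisenberg pair -/
theorem C7_map {G K : Type} [Group G] [Group K] (f : G →* K) {p : ℕ} {x y : G} (h : Heis p x y)
    (hne : f ⁅x, y⁆ ≠ 1) : Heis p (f x) (f y) := by
  obtain ⟨hx, hy, hz, hzx, hzy⟩ := h
  rw [map_commutatorElement] at hne
  refine ⟨?_, ?_, hne, ?_, ?_⟩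
  · rw [← map_pow, hx, map_one]
  · rw [← map_pow, hy, map_one]
  · rw [← map_commutatorElement, ← map_mul, hzx, map_mul]
  · rw [← map_commutatorElement, ← map_mul, hzy, map_mul]

/-- **C7**. -/
theorem C7 (h6 : C6_stmt) (hF : FIT_stmt) (hG : GLO_stmt) (hN : NC7_stmt) : C7_stmt := by
  intro M _ _ p hp hp5 hM H hsol hirr x hx y hy hxy
  have := Fact.mk hp
  have : Nontrivial M := by
    by_contra hcon
    rw [not_nontrivial_iff_subsingleton] at hcon
    apply hxy.2.2.1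
    ext m
    exact Subsingleton.elim _ _
  have hMp : IsPGroup p M := fun m => ⟨1, by rw [pow_one]; exact hM m⟩
  obtain ⟨μ, hμ⟩ := IsPGroup.iff_card.1 hMp
  have hH : Heis p (⟨x, hx⟩ : H) (⟨y, hy⟩ : H) := by
    obtain ⟨h1, h2, h3, h4, h5⟩ := hxy
    refine ⟨Subtype.ext h1, Subtype.ext h2, fun h => h3 (congrArg Subtype.val h), Subtype.ext h4,
      Subtype.ext h5⟩
  have hzp := C7_zp hH
  have hne : ¬ (∀ (ℓ : ℕ) (Q : Subgroup H), ℓ.Prime → ℓ ≠ p → Q.Normal → IsPGroup ℓ Q →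
      ∀ q ∈ Q, ⁅(⟨x, hx⟩ : H), (⟨y, hy⟩ : H)⁆ * q = q * ⁅(⟨x, hx⟩ : H), (⟨y, hy⟩ : H)⁆) :=
    fun hcon => hH.2.2.1 (hF H p hp hsol (fun P hPn hPp => C7_noP M p hp hM H hirr P hPn hPp)
      _ hzp hcon)
  push Not at hne
  obtain ⟨ℓ, Q, hl, hlp, hQn, hQl, q, hq, hzq⟩ := hne
  have := hQn
  have := Fact.mk hl
  have hΦ : C7_Phi Q ⁅(⟨x, hx⟩ : H), (⟨y, hy⟩ : H)⁆ ≠ 1 := fun hcon =>
    hzq (C7_PhiNe Q hp hl hlp hQl _ hzp hcon q hq)
  have hX : IsPGroup ℓ (Abelianization Q) := hQl.to_quotient (commutator Q)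
  obtain ⟨i, hi1, hi2, hi3⟩ := h6 (Abelianization Q) p ℓ hp hl hlp hX _ _ (C7_map (C7_Phi Q) hH hΦ)
  have h7 : Nat.card (Abelianization Q) ∣ Nat.card Q :=
    Subgroup.card_quotient_dvd_card (commutator Q)
  have h8 : Nat.card Q ∣ Nat.card H := Subgroup.card_subgroup_dvd_card Q
  have h9 : Nat.card H ∣ Nat.card (MulAut M) := Subgroup.card_subgroup_dvd_card H
  have h10 : ℓ ^ (i * p) ∣ ∏ j ∈ Finset.range μ, (p ^ μ - p ^ j) := by
    rw [← hG M p μ hp hM hμ]
    exact hi3.trans (h7.trans (h8.trans h9))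
  rw [hμ]
  exact hN p μ ℓ i hp hp5 hl hlp hi1 hi2 h10

end QS
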