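import Pool.Agent.helper4.QS.Spec

/-! # Project qs, module AVG: quadratic means -/

open scoped BigOperators ComplexOrder ComplexConjugate Topology

namespace Pool.Agent.QS

open Pool.Agent.helper86.CM Filter

noncomputable section

theorem AVG_dvd (s r r' : ℕ) : s ∣ Nat.dist r r' ↔ r' ≡ r [MOD s] := by
  rcases le_total r r' with h | h
  · rw [Nat.dist_eq_sub_of_le h]
    constructor
    · intro h1
      exact ((Nat.modEq_iff_dvd' h).2 h1).symm
    · intro h1
      exact (Nat.modEq_iff_dvd' h).1 h1.symm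
  · rw [Nat.dist_eq_sub_of_le_right h]
    constructor
    · intro h1
      exact (Nat.modEq_iff_dvd' h).2 h1
    · intro h1
      exact (Nat.modEq_iff_dvd' h).1 h1

theorem AVG_cnt (s l r : ℕ) (hs : 1 ≤ s) :
    |(∑ r' ∈ Finset.range l, if s ∣ Nat.dist r r' then (1 : ℝ) else 0) - (l : ℝ) / s| ≤ 1 := by
  have h1 : (∑ r' ∈ Finset.range l, if s ∣ Nat.dist r r' then (1 : ℝ) else 0) =
      ((l.count (· ≡ r [MOD s]) : ℕ) : ℝ) := by
    rw [Nat.count_eq_card_filter_range, Finset.card_filter]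
    push_cast
    refine Finset.sum_congr rfl fun r' _ => ?_
    simp only [AVG_dvd]
  rw [h1, Nat.count_modEq_card _ (by omega : 0 < s)]
  have hs0 : (0 : ℝ) < s := by exact_mod_cast hs
  have h2 : ((l / s : ℕ) : ℝ) ≤ (l : ℝ) / s := Nat.cast_div_le
  have h3 : (l : ℝ) / s < ((l / s : ℕ) : ℝ) + 1 := by
    rw [div_lt_iff₀ hs0]
    have h4 : l < (l / s + 1) * s := by
      have h5 := Nat.div_add_mod l s
      have h6 := Nat.mod_lt l (by omega : 0 < s)
      nlinarith
    exact_mod_cast h4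
  rw [abs_le]
  split_ifs
  · push_cast
    constructor <;> linarith
  · push_cast
    constructor <;> linarith

theorem AVG_err (f : ℕ → ℝ) (hf : ∀ d, 0 ≤ f d) (l r : ℕ) (hr : r < l) :
    ∑ r' ∈ Finset.range l, f (Nat.dist r r') ≤ 2 * ∑ d ∈ Finset.range l, f d := by
  rw [← Finset.sum_filter_add_sum_filter_not (Finset.range l) (fun r' => r' ≤ r)]
  have h1 : ∑ r' ∈ (Finset.range l).filter (fun r' => r' ≤ r), f (Nat.dist r r') ≤
      ∑ d ∈ Finset.range l, f d := by
    have h2 : ∀ r' ∈ (Finset.range l).filter (fun r' => r' ≤ r), f (Nat.dist r r') = f (r - r') := by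
      intro r' hr'
      rw [Nat.dist_eq_sub_of_le_right (Finset.mem_filter.1 hr').2]
    rw [Finset.sum_congr rfl h2, ← Finset.sum_image (f := f) (g := fun r' => r - r')]
    · apply Finset.sum_le_sum_of_subset_of_nonneg
      · intro d hd
        obtain ⟨r', _, rfl⟩ := Finset.mem_image.1 hd
        rw [Finset.mem_range]
        omega
      · intro d _ _
        exact hf d
    · intro a ha b hb hab
      have ha' := (Finset.mem_filter.1 (Finset.mem_coe.1 ha)).2
      have hb' := (Finset.mem_filter.1 (Finset.mem_coe.1 hb)).2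
      simp only at hab
      omega
  have h3 : ∑ r' ∈ (Finset.range l).filter (fun r' => ¬ r' ≤ r), f (Nat.dist r r') ≤
      ∑ d ∈ Finset.range l, f d := by
    have h2 : ∀ r' ∈ (Finset.range l).filter (fun r' => ¬ r' ≤ r),
        f (Nat.dist r r') = f (r' - r) := by
      intro r' hr'
      rw [Nat.dist_eq_sub_of_le (not_le.1 (Finset.mem_filter.1 hr').2).le]
    rw [Finset.sum_congr rfl h2, ← Finset.sum_image (f := f) (g := fun r' => r' - r)]
    · apply Finset.sum_le_sum_of_subset_of_nonneg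
      · intro d hd
        obtain ⟨r', hr', rfl⟩ := Finset.mem_image.1 hd
        have h4 := Finset.mem_range.1 (Finset.mem_filter.1 hr').1
        rw [Finset.mem_range]
        omega
      · intro d _ _
        exact hf d
    · intro a ha b hb hab
      have ha' := (Finset.mem_filter.1 (Finset.mem_coe.1 ha)).2
      have hb' := (Finset.mem_filter.1 (Finset.mem_coe.1 hb)).2
      simp only at hab
      omega
  linarith

theorem AVG : AVG_stmt := by
  intro s hs ρ L hρ F hdiag hconj hF
  have hs0 : (0 : ℝ) < s := by exact_mod_cast hs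
  let g : ℕ → ℝ := fun d => if d = 0 then 1 else if s ∣ d then ρ (d / s) else 0
  let e : ℕ → ℝ := fun d => g d - L * (if s ∣ d then 1 else 0)
  have hFg : ∀ r r', F r r' = ((g (Nat.dist r r') : ℝ) : ℂ) := by
    have h1 : ∀ r r', r < r' → F r r' = ((g (Nat.dist r r') : ℝ) : ℂ) := by
      intro r r' h
      rw [hF r r' h, Nat.dist_eq_sub_of_le h.le]
      have h2 : r' - r ≠ 0 := by omega
      simp only [g, if_neg h2]
    intro r r'
    rcases lt_trichotomy r r' with h | h | h
    · exact h1 r r' h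
    · subst h
      rw [hdiag, Nat.dist_self]
      simp [g]
    · rw [hconj r' r, h1 r' r h, Nat.dist_comm, Complex.conj_ofReal]
  have he : Tendsto e atTop (𝓝 0) := by
    rw [Metric.tendsto_atTop] at hρ ⊢
    intro ε hε
    obtain ⟨M, hM⟩ := hρ ε hε
    refine ⟨s * M + 1, fun d hd => ?_⟩
    rw [Real.dist_eq, sub_zero]
    have hd0 : d ≠ 0 := by omega
    simp only [e, g, if_neg hd0]
    by_cases h1 : s ∣ d
    · rw [if_pos h1, if_pos h1, mul_one]
      have h2 : M ≤ d / s := by
        rw [Nat.le_div_iff_mul_le (by omega)]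
        nlinarith
      have h3 := hM _ h2
      rwa [Real.dist_eq] at h3
    · rw [if_neg h1, if_neg h1, mul_zero, sub_zero, abs_zero]
      exact hε
  have hces : Tendsto (fun n : ℕ => (n : ℝ)⁻¹ * ∑ i ∈ Finset.range n, |e i|) atTop (𝓝 0) := by
    have h1 : Tendsto (fun n => |e n|) atTop (𝓝 0) := by
      simpa using he.abs
    exact h1.cesaro
  let T : ℕ → ℝ := fun l => ((l : ℝ) ^ 2)⁻¹ * ∑ r ∈ Finset.range l, ∑ r' ∈ Finset.range l,
    g (Nat.dist r r')
  have hT : Tendsto T atTop (𝓝 (L / s)) := by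
    rw [tendsto_iff_norm_sub_tendsto_zero]
    have hb : Tendsto (fun l : ℕ => |L| * (l : ℝ)⁻¹ +
        2 * ((l : ℝ)⁻¹ * ∑ i ∈ Finset.range l, |e i|)) atTop (𝓝 (|L| * 0 + 2 * 0)) :=
      (tendsto_const_nhds.mul tendsto_inv_atTop_nhds_zero_nat).add (tendsto_const_nhds.mul hces)
    rw [mul_zero, mul_zero, add_zero] at hb
    refine squeeze_zero' (Eventually.of_forall fun l => norm_nonneg _) ?_ hb
    filter_upwards [eventually_gt_atTop 0] with l hl
    have hl0 : (0 : ℝ) < l := by exact_mod_cast hl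
    have h1 : ∑ r ∈ Finset.range l, ∑ r' ∈ Finset.range l, g (Nat.dist r r') - (l : ℝ) ^ 2 * (L / s) =
        L * ∑ r ∈ Finset.range l, ((∑ r' ∈ Finset.range l,
          if s ∣ Nat.dist r r' then (1 : ℝ) else 0) - (l : ℝ) / s) +
        ∑ r ∈ Finset.range l, ∑ r' ∈ Finset.range l, e (Nat.dist r r') := by
      simp only [e, Finset.sum_sub_distrib, Finset.mul_sum, Finset.sum_const, Finset.card_range,
        nsmul_eq_mul, mul_sub]
      ring
    have h2 : |∑ r ∈ Finset.range l, ((∑ r' ∈ Finset.range l,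
          if s ∣ Nat.dist r r' then (1 : ℝ) else 0) - (l : ℝ) / s)| ≤ l := by
      refine (Finset.abs_sum_le_sum_abs _ _).trans ?_
      refine (Finset.sum_le_sum fun r _ => AVG_cnt s l r hs).trans ?_
      simp
    have h3 : |∑ r ∈ Finset.range l, ∑ r' ∈ Finset.range l, e (Nat.dist r r')| ≤
        l * (2 * ∑ d ∈ Finset.range l, |e d|) := by
      refine (Finset.abs_sum_le_sum_abs _ _).trans ?_
      have h4 : ∀ r ∈ Finset.range l, |∑ r' ∈ Finset.range l, e (Nat.dist r r')| ≤
          2 * ∑ d ∈ Finset.range l, |e d| := by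
        intro r hr
        exact (Finset.abs_sum_le_sum_abs _ _).trans
          (AVG_err (fun d => |e d|) (fun d => abs_nonneg _) l r (Finset.mem_range.1 hr))
      refine (Finset.sum_le_sum h4).trans ?_
      simp
    have h5 : T l - L / s = ((l : ℝ) ^ 2)⁻¹ *
        (∑ r ∈ Finset.range l, ∑ r' ∈ Finset.range l, g (Nat.dist r r') - (l : ℝ) ^ 2 * (L / s)) := by
      simp only [T]
      field_simp
    rw [Real.norm_eq_abs, h5, h1, abs_mul, abs_of_pos (by positivity : 0 < ((l : ℝ) ^ 2)⁻¹)]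
    have h6 : |L * ∑ r ∈ Finset.range l, ((∑ r' ∈ Finset.range l,
          if s ∣ Nat.dist r r' then (1 : ℝ) else 0) - (l : ℝ) / s) +
        ∑ r ∈ Finset.range l, ∑ r' ∈ Finset.range l, e (Nat.dist r r')| ≤
        |L| * l + l * (2 * ∑ d ∈ Finset.range l, |e d|) := by
      refine (abs_add_le _ _).trans (add_le_add ?_ h3)
      rw [abs_mul]
      exact mul_le_mul_of_nonneg_left h2 (abs_nonneg _)
    calc ((l : ℝ) ^ 2)⁻¹ * _ ≤ ((l : ℝ) ^ 2)⁻¹ * (|L| * l + l * (2 * ∑ d ∈ Finset.range l, |e d|)) :=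
          mul_le_mul_of_nonneg_left h6 (by positivity)
      _ = |L| * (l : ℝ)⁻¹ + 2 * ((l : ℝ)⁻¹ * ∑ i ∈ Finset.range l, |e i|) := by
          field_simp
  have h7 : (fun l : ℕ => ((l : ℂ) ^ 2)⁻¹ * ∑ r ∈ Finset.range l, ∑ r' ∈ Finset.range l, F r r') =
      fun l => ((T l : ℝ) : ℂ) := by
    funext l
    simp only [T, hFg]
    push_cast
    rfl
  rw [h7]
  exact (Complex.continuous_ofReal.tendsto _).comp hT

end

end Pool.Agent.QS
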