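import Pool.Agent.helper4.QS.Spec

/-! # Project qs, module FACE: estimate of one factor -/

open scoped BigOperators ComplexOrder ComplexConjugate Topology

namespace Pool.Agent.QS

open Pool.Agent.helper86.CM Filter

noncomputable section

theorem FACE_sum (B : Lat 1 ≃ₗ[ℤ] Lat 1) (t : ℤ) (Φ : PP → ℂ) {Γ : Type} [AddCommGroup Γ]
    (h : Γ → Γ → ℝ) (ι : PP →+ Γ) (R : ℕ) (u : PP) (v : Γ) :
    fac h ι (box R) (GΦ B t Φ R) u v = Φ u * (((box R).card : ℂ)⁻¹ *
      ∑ x ∈ (box R).filter (fun x => x - u ∈ box R),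
        ee (h (ι u) v + hh B t x u - h (ι x) (ι u) - 2 * h (ι x) v)) := by
  have hb := bil_hh B t
  unfold fac
  rw [Finset.sum_filter, Finset.mul_sum, Finset.mul_sum, Finset.mul_sum]
  refine Finset.sum_congr rfl fun x _ => ?_
  by_cases hx : x - u ∈ box R
  · rw [if_pos hx, if_pos hx]
    unfold GΦ
    have h1 : hh B t x (x - u) = - hh B t x u := by
      rw [sub_eq_add_neg, hb.addr, hb.self, hb.negr, zero_add]
    have h2 : x - (x - u) = u := by abel
    rw [h1, h2, neg_neg]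
    have h3 : h (ι u) v + hh B t x u - h (ι x) (ι u) - 2 * h (ι x) v =
        h (ι u) v + (hh B t x u + (-(h (ι x) (ι u)) - 2 * h (ι x) v)) := by ring
    rw [h3, ee_add, ee_add]
    ring
  · rw [if_neg hx, if_neg hx]
    simp

theorem FACE (hBOX : BOX_stmt) (hPDB : PDB_stmt) : FACE_stmt := by
  intro B t Φ hPD h0 Γ _ h hb ι R hR u hu v θ0 θ hθ0 hθ
  have hΦ : ‖Φ u‖ ≤ 1 := (hPDB PP (hh B t) (bil_hh B t) Φ hPD h0).1 u
  rw [FACE_sum]
  set S := (box R).filter (fun x => x - u ∈ box R) with hS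
  have hc0 : (0 : ℝ) < ((box R).card : ℝ) := by
    have h1 : 0 < (box R).card := Finset.card_pos.2 ⟨u, hu⟩
    exact_mod_cast h1
  have hcS : (S.card : ℝ) ≤ ((box R).card : ℝ) := by
    exact_mod_cast Finset.card_filter_le _ _
  have hnc : ‖((box R).card : ℂ)⁻¹‖ = ((box R).card : ℝ)⁻¹ := by
    rw [norm_inv, Complex.norm_natCast]
  have hB := hBOX.2.2 R u hR
  rw [← hS] at hB
  set c : ℝ := ((box R).card : ℝ) with hc
  have hθu : |h (ι u) (ι u) - hh B t u u| ≤ θ0 := hθ0 u hu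
  have hθ00 : 0 ≤ θ0 := (abs_nonneg _).trans hθu
  obtain ⟨zu, hzu⟩ := hθ u hu
  have hθn : 0 ≤ θ := (abs_nonneg _).trans hzu
  constructor
  · have hphase : ∀ x ∈ S, ‖ee (h (ι u) v + hh B t x u - h (ι x) (ι u) - 2 * h (ι x) v) - 1‖ ≤
        2 * Real.pi * (θ0 + 3 * θ) := by
      intro x hx
      have hx' : x ∈ box R := (Finset.mem_filter.1 hx).1
      obtain ⟨zx, hzx⟩ := hθ x hx'
      refine (norm_ee_sub_one _ (zu - 2 * zx)).trans ?_
      refine mul_le_mul_of_nonneg_left ?_ (by positivity)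
      have h1 := hθ0 x hx'
      push_cast
      rw [abs_le] at h1 hzx hzu ⊢
      constructor <;> linarith [h1.1, h1.2, hzx.1, hzx.2, hzu.1, hzu.2]
    have h2 : ((box R).card : ℂ)⁻¹ * ∑ x ∈ S,
          ee (h (ι u) v + hh B t x u - h (ι x) (ι u) - 2 * h (ι x) v) - 1 =
        ((box R).card : ℂ)⁻¹ * ∑ x ∈ S,
          (ee (h (ι u) v + hh B t x u - h (ι x) (ι u) - 2 * h (ι x) v) - 1) -
        (((1 - (S.card : ℝ) / c : ℝ)) : ℂ) := by
      rw [Finset.sum_sub_distrib]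
      simp only [Finset.sum_const, nsmul_eq_mul, mul_one]
      push_cast
      rw [hc]
      push_cast
      field_simp
      ring
    have h3 : ‖((box R).card : ℂ)⁻¹ * ∑ x ∈ S,
          (ee (h (ι u) v + hh B t x u - h (ι x) (ι u) - 2 * h (ι x) v) - 1)‖ ≤
        2 * Real.pi * (θ0 + 3 * θ) := by
      rw [norm_mul, hnc]
      have h4 : ‖∑ x ∈ S, (ee (h (ι u) v + hh B t x u - h (ι x) (ι u) - 2 * h (ι x) v) - 1)‖ ≤
          c * (2 * Real.pi * (θ0 + 3 * θ)) := by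
        refine (norm_sum_le _ _).trans ?_
        refine (Finset.sum_le_sum hphase).trans ?_
        rw [Finset.sum_const, nsmul_eq_mul]
        exact mul_le_mul_of_nonneg_right hcS (by positivity)
      calc c⁻¹ * _ ≤ c⁻¹ * (c * (2 * Real.pi * (θ0 + 3 * θ))) :=
            mul_le_mul_of_nonneg_left h4 (by positivity)
        _ = 2 * Real.pi * (θ0 + 3 * θ) := by
            field_simp
    have h5 : ‖(((1 - (S.card : ℝ) / c : ℝ)) : ℂ)‖ ≤ 2 * ‖u‖ / R := by
      rw [Complex.norm_real, Real.norm_eq_abs, abs_of_nonneg]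
      · have h6 : 1 - 2 * ‖u‖ / R ≤ (S.card : ℝ) / c := by
          rw [le_div_iff₀ hc0]
          exact hB
        linarith
      · have h6 : (S.card : ℝ) / c ≤ 1 := by
          rw [div_le_one hc0]
          exact hcS
        linarith
    have h7 : Φ u * (((box R).card : ℂ)⁻¹ * ∑ x ∈ S,
          ee (h (ι u) v + hh B t x u - h (ι x) (ι u) - 2 * h (ι x) v)) - Φ u =
        Φ u * (((box R).card : ℂ)⁻¹ * ∑ x ∈ S,
          ee (h (ι u) v + hh B t x u - h (ι x) (ι u) - 2 * h (ι x) v) - 1) := by ring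
    rw [h7, norm_mul, h2]
    have h8 := (norm_sub_le (((box R).card : ℂ)⁻¹ * ∑ x ∈ S,
          (ee (h (ι u) v + hh B t x u - h (ι x) (ι u) - 2 * h (ι x) v) - 1))
        (((1 - (S.card : ℝ) / c : ℝ)) : ℂ)).trans (add_le_add h3 h5)
    calc ‖Φ u‖ * _ ≤ 1 * _ := mul_le_mul_of_nonneg_right hΦ (norm_nonneg _)
      _ ≤ 2 * ‖u‖ / R + 2 * Real.pi * (θ0 + 3 * θ) := by
          rw [one_mul]
          linarith
  · rw [norm_mul, norm_mul, hnc]
    have h4 : ‖∑ x ∈ S, ee (h (ι u) v + hh B t x u - h (ι x) (ι u) - 2 * h (ι x) v)‖ ≤ c := by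
      refine (norm_sum_le _ _).trans ?_
      simp only [norm_ee, Finset.sum_const, nsmul_eq_mul, mul_one]
      exact hcS
    have h5 : c⁻¹ * ‖∑ x ∈ S, ee (h (ι u) v + hh B t x u - h (ι x) (ι u) - 2 * h (ι x) v)‖ ≤ 1 := by
      rw [inv_mul_le_iff₀ hc0, mul_one]
      exact h4
    calc ‖Φ u‖ * _ ≤ 1 * 1 := mul_le_mul hΦ h5 (by positivity) zero_le_one
      _ = 1 := one_mul 1

end

end Pool.Agent.QS
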